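import Pool.Agent.Run7.h105.EO.I

/-!
Piece CARD of project EO (helper105), written by helper989: the cardinals.
-/

set_option autoImplicit false

open Cardinal Set Ordinal

noncomputable section

namespace Pool.Agent.Run7.h989.EO

open Pool.Agent.Run7.h105.EO

/-- an initial segment of `μ.ord.ToType` -/
def seg (μ c : Cardinal.{0}) : Set μ.ord.ToType := {m | (m.toOrd : Ordinal.{0}) < c.ord}

theorem mk_seg (μ c : Cardinal.{0}) : #(seg μ c) ≤ c := by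
  have h : #(seg μ c) ≤ #c.ord.ToType := by
    refine mk_le_of_injective (f := fun m : seg μ c => ToType.mk (⟨(m.1.toOrd : Ordinal.{0}), m.2⟩ : Iio c.ord)) ?_
    intro m m' hm
    have h1 := ToType.mk.injective hm
    have h2 : ((m.1.toOrd : Iio μ.ord) : Ordinal.{0}) = ((m'.1.toOrd : Iio μ.ord) : Ordinal.{0}) :=
      congrArg (fun x : Iio c.ord => (x : Ordinal.{0})) h1
    have h3 : m.1.toOrd = m'.1.toOrd := Subtype.ext h2
    exact Subtype.ext (ToType.mk.symm.injective h3)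
  rwa [mk_ord_toType] at h

theorem t_CARD : S_CARD := by
  intro κ hκ
  obtain ⟨θ, hθ⟩ : ∃ θ : Cardinal.{0}, θ = Order.succ κ := ⟨_, rfl⟩
  have hθr : θ.IsRegular := hθ ▸ isRegular_succ hκ
  obtain ⟨o, ho⟩ : ∃ o : Ordinal.{0}, o = θ.ord := ⟨_, rfl⟩
  have holim : Order.IsSuccLimit o := ho ▸ isSuccLimit_ord hθr.aleph0_le
  have hocof : κ < o.cof := by
    rw [ho, hθr.cof_ord, hθ]
    exact Order.lt_succ κ
  obtain ⟨μ, hμ⟩ : ∃ μ : Cardinal.{0}, μ = ℶ_ o := ⟨_, rfl⟩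
  have hstrong : IsStrongLimit μ := hμ ▸ isStrongLimit_beth.2 holim.isSuccPrelimit
  have h2 : ∀ ν : Cardinal.{0}, ν < μ → (2 : Cardinal.{0}) ^ ν < μ := fun ν h => hstrong.isStrongPrelimit h
  have hκθ : κ < θ := hθ ▸ Order.lt_succ κ
  have hfin : ∀ x : Cardinal.{0}, x < θ → x ≤ κ := by
    intro x hx
    rw [hθ] at hx
    exact Order.lt_succ_iff.1 hx
  have hθle : θ ≤ μ := by
    rw [hμ, ho]
    exact le_beth_ord θ
  have hκμ : κ < μ := hκθ.trans_le hθle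
  have hθμ : θ < μ := by
    rw [hθ]
    exact (Order.succ_le_of_lt (cantor κ)).trans_lt (h2 κ hκμ)
  have hμ0 : ℵ₀ ≤ μ := hκ.trans hκμ.le
  have hex : ∀ c : Cardinal.{0}, c < μ → ∃ ξ : Ordinal.{0}, ξ < o ∧ c < ℶ_ ξ := by
    intro c hc
    rw [hμ, beth_limit holim] at hc
    obtain ⟨ξ, hξ⟩ := exists_lt_of_lt_ciSup' hc
    exact ⟨ξ.1, ξ.2, hξ⟩
  have hpow : ∀ ξ : θ.ord.ToType, (2 : Cardinal.{0}) ^ #(seg μ (ℶ_ (ξ.toOrd : Ordinal.{0}))) ≤ μ := by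
    intro ξ
    have hξ : (ξ.toOrd : Ordinal.{0}) < o := by
      rw [ho]
      exact ξ.toOrd.2
    have h3 : ℶ_ (ξ.toOrd : Ordinal.{0}) < μ := by
      rw [hμ]
      exact beth_strictMono hξ
    exact (h2 _ ((mk_seg _ _).trans_lt h3)).le
  have hinj : ∀ ξ : θ.ord.ToType, ∃ c : Set (seg μ (ℶ_ (ξ.toOrd : Ordinal.{0}))) → μ.ord.ToType, Function.Injective c := by
    intro ξ
    have h4 : #(Set (seg μ (ℶ_ (ξ.toOrd : Ordinal.{0})))) ≤ #μ.ord.ToType := by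
      rw [mk_set, mk_ord_toType]
      exact hpow ξ
    obtain ⟨f⟩ := h4
    exact ⟨f, f.injective⟩
  choose c hc using hinj
  refine ⟨θ.ord.ToType, μ.ord.ToType, fun Z ξ => c ξ (Subtype.val ⁻¹' Z), ?_⟩
  refine ⟨hκ, ?_, ?_, ?_, ?_, ?_⟩
  · rw [mk_ord_toType, hθ]
  · rw [mk_ord_toType, mk_ord_toType]
    exact hθμ
  · intro ν hν
    rw [mk_ord_toType] at hν ⊢
    exact h2 ν hν
  · intro J f hJ hf
    simp only [mk_ord_toType] at hf ⊢
    choose ξ hξo hξ using fun j => hex (f j) (hf j)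
    have hsup : (⨆ j, ξ j) < o := iSup_lt_of_lt_cof (hJ.trans_lt hocof) hξo
    have hle : ∀ j, f j ≤ ℶ_ (⨆ j, ξ j) := fun j =>
      (hξ j).le.trans (beth_mono (le_ciSup Ordinal.bddAbove_of_small j))
    have hb : ℶ_ (⨆ j, ξ j) < μ := by
      rw [hμ]
      exact beth_strictMono hsup
    calc Cardinal.sum f ≤ Cardinal.sum (fun _ : J => ℶ_ (⨆ j, ξ j)) := sum_le_sum _ _ hle
      _ = #J * ℶ_ (⨆ j, ξ j) := by rw [sum_const']
      _ < μ := mul_lt_of_lt hμ0 (hJ.trans_lt hκμ) hb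
  · intro Z Z' hZ
    obtain ⟨m, hm⟩ : ∃ m, ¬ (m ∈ Z ↔ m ∈ Z') := by
      by_contra hcon
      push Not at hcon
      exact hZ (Set.ext hcon)
    obtain ⟨ξ₀, hξ₀, hmξ⟩ := hex (m.toOrd : Ordinal.{0}).card (lt_ord.1 m.toOrd.2)
    have hξ₀' : ξ₀ < θ.ord := by rwa [← ho]
    let x₀ : θ.ord.ToType := ToType.mk ⟨ξ₀, hξ₀'⟩
    have hx₀ : (x₀.toOrd : Ordinal.{0}) = ξ₀ := by
      show ((ToType.mk.symm (ToType.mk ⟨ξ₀, hξ₀'⟩) : Iio θ.ord) : Ordinal.{0}) = ξ₀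
      rw [OrderIso.symm_apply_apply]
    have hsub : {ξ : θ.ord.ToType | c ξ (Subtype.val ⁻¹' Z) = c ξ (Subtype.val ⁻¹' Z')} ⊆ Iio x₀ := by
      intro ξ hξ
      by_contra hlt
      have hle : x₀ ≤ ξ := not_lt.mp hlt
      have hle' : ξ₀ ≤ (ξ.toOrd : Ordinal.{0}) := by
        rw [← hx₀]
        have : x₀.toOrd ≤ ξ.toOrd := ToType.mk.symm.monotone hle
        exact this
      have hmem : m ∈ seg μ (ℶ_ (ξ.toOrd : Ordinal.{0})) := by
        show (m.toOrd : Ordinal.{0}) < (ℶ_ (ξ.toOrd : Ordinal.{0})).ord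
        rw [lt_ord]
        exact hmξ.trans_le (beth_mono hle')
      have heq := hc ξ hξ
      have : (⟨m, hmem⟩ : seg μ (ℶ_ (ξ.toOrd : Ordinal.{0}))) ∈ (Subtype.val ⁻¹' Z : Set (seg μ (ℶ_ (ξ.toOrd : Ordinal.{0})))) ↔
          (⟨m, hmem⟩ : seg μ (ℶ_ (ξ.toOrd : Ordinal.{0}))) ∈ (Subtype.val ⁻¹' Z' : Set (seg μ (ℶ_ (ξ.toOrd : Ordinal.{0})))) := by
        rw [heq]
      exact hm this
    have hlt : #(Iio x₀) < θ := by
      have h := mk_Iio_lt x₀ (by simp)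
      rwa [mk_ord_toType] at h
    have : #{ξ : θ.ord.ToType | c ξ (Subtype.val ⁻¹' Z) = c ξ (Subtype.val ⁻¹' Z')} < θ :=
      (mk_le_mk_of_subset hsub).trans_lt hlt
    exact hfin _ this

end Pool.Agent.Run7.h989.EO
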